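import Pool.Agent.Lib.MP_c3d375_an.Neg.Iface

/-!
# MP_c3d375: module CLT (Paper 4.5)
-/

open Complex ComplexConjugate

namespace C3N.H30

variable {H : Type} [NormedAddCommGroup H] [InnerProductSpace ℂ H] [CompleteSpace H]
  {𝓐 : Type} [CommRing 𝓐] [Algebra ℂ 𝓐]

/-- monotonicity of `Near` in the error -/
theorem Near.mono {Φ : 𝓐 →ₐ[ℂ] (H →L[ℂ] H)} {q j Δ : 𝓐} {M δ δ' : ℝ} {v : H}
    (h : Near Φ q j Δ M δ v) (hd : δ ≤ δ') : Near Φ q j Δ M δ' v where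
  hj := h.hj
  nj := h.nj
  nK := h.nK
  nJ := h.nJ
  nΔ := h.nΔ.trans hd
  acc := h.acc
  pj x := by
    have := h.pj x
    nlinarith [mul_le_mul_of_nonneg_right hd (sq_nonneg ‖Φ j x‖)]
  pJ x := by
    have := h.pJ x
    nlinarith [mul_le_mul_of_nonneg_right hd (sq_nonneg ‖Φ (q ^ 2 * j) x‖)]
  nv := h.nv
  nu := h.nu
  ny := h.ny
  form := h.form.trans hd
  xi := h.xi.trans hd
  k1 := h.k1.trans hd
  k2 := h.k2.trans hd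

/-- monotonicity of `KerA` in the error -/
theorem KerA.mono {Φ : 𝓐 →ₐ[ℂ] (H →L[ℂ] H)} {q qi j B L : 𝓐} {a : ℝ} {ν b : ℂ} {M δ δ' : ℝ}
    (h : KerA Φ q qi j B L a ν b M δ) (hd : δ ≤ δ') : KerA Φ q qi j B L a ν b M δ' where
  hqi := h.hqi
  nB := h.nB
  nk := h.nk
  nl := h.nl
  hb := h.hb
  hν := h.hν
  hν' := h.hν'
  hν0 := h.hν0
  ha := h.ha
  ha' := h.ha'
  posx n := by
    have := h.posx n
    nlinarith [mul_le_mul_of_nonneg_right hd (sq_nonneg ‖n‖)]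
  posu n := by
    have := h.posu n
    nlinarith [mul_le_mul_of_nonneg_right hd (sq_nonneg ‖n‖)]
  kx n n' := by
    have hM : 0 ≤ M := (norm_nonneg _).trans h.nB
    refine (h.kx n n').trans ?_
    have h1 : ∀ (r : ℝ) (m : H), √(r + δ * ‖m‖ ^ 2) ≤ √(r + δ' * ‖m‖ ^ 2) := fun r m =>
      Real.sqrt_le_sqrt (by nlinarith [mul_le_mul_of_nonneg_right hd (sq_nonneg ‖m‖)])
    gcongr
  ku n n' := by
    have hM : 0 ≤ M := (norm_nonneg _).trans h.nB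
    refine (h.ku n n').trans ?_
    have h1 : ∀ (r : ℝ) (m : H), √(r + δ * ‖m‖ ^ 2) ≤ √(r + δ' * ‖m‖ ^ 2) := fun r m =>
      Real.sqrt_le_sqrt (by nlinarith [mul_le_mul_of_nonneg_right hd (sq_nonneg ‖m‖)])
    gcongr

/-- the functional `Z ↦ ⟨x, Z y⟩` -/
noncomputable def lf (Φ : 𝓐 →ₐ[ℂ] (H →L[ℂ] H)) (x y : H) : 𝓐 →ₗ[ℂ] ℂ where
  toFun Z := inner ℂ x (Φ Z y)
  map_add' a b := by rw [map_add, ContinuousLinearMap.add_apply, inner_add_right]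
  map_smul' c a := by
    rw [map_smul, ContinuousLinearMap.smul_apply, inner_smul_right]; rfl

theorem lf_apply (Φ : 𝓐 →ₐ[ℂ] (H →L[ℂ] H)) (x y : H) (Z : 𝓐) :
    lf Φ x y Z = inner ℂ x (Φ Z y) := rfl

theorem lf_q (Φ : 𝓐 →ₐ[ℂ] (H →L[ℂ] H)) (x y : H) (q Z : 𝓐) :
    lf Φ x (Φ q y) Z = lf Φ x y (Z * q) := by
  rw [lf_apply, lf_apply, map_mul]; rfl

theorem lf_bound (Φ : 𝓐 →ₐ[ℂ] (H →L[ℂ] H)) (x y : H) (Z : 𝓐) {X Y G : ℝ} (hx : ‖x‖ ≤ X)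
    (hy : ‖y‖ ≤ Y) (hG : ‖Φ Z‖ ≤ G) : ‖lf Φ x y Z‖ ≤ X * G * Y := by
  have hX : 0 ≤ X := (norm_nonneg _).trans hx
  have hG' : 0 ≤ G := (norm_nonneg _).trans hG
  calc ‖lf Φ x y Z‖ ≤ ‖x‖ * ‖Φ Z y‖ := norm_inner_le_norm _ _
    _ ≤ X * (G * Y) := by
        gcongr
        exact ((Φ Z).le_opNorm y).trans (by gcongr)
    _ = X * G * Y := by ring

/-- a functional which is small on the powers of `K` is small on `K ^ (m+1) (1 - 4 K²) ^ n` -/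
theorem pw (l : 𝓐 →ₗ[ℂ] ℂ) (K : 𝓐) {η : ℝ} {D : ℕ} (h : ∀ m ≤ D, ‖l (K ^ (m + 1))‖ ≤ η) :
    ∀ n m : ℕ, m + 2 * n ≤ D → ‖l (K ^ (m + 1) * (1 - 4 * K ^ 2) ^ n)‖ ≤ 5 ^ n * η := by
  intro n
  induction n with
  | zero =>
    intro m hm
    simpa using h m (by omega)
  | succ n ih =>
    intro m hm
    have e : K ^ (m + 1) * (1 - 4 * K ^ 2) ^ (n + 1) =
        K ^ (m + 1) * (1 - 4 * K ^ 2) ^ n - (4 : ℂ) • (K ^ (m + 2 + 1) * (1 - 4 * K ^ 2) ^ n) := by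
      rw [Algebra.smul_def, map_ofNat]
      ring
    rw [e, map_sub, map_smul]
    calc ‖l (K ^ (m + 1) * (1 - 4 * K ^ 2) ^ n) - (4 : ℂ) • l (K ^ (m + 2 + 1) * (1 - 4 * K ^ 2) ^ n)‖
        ≤ ‖l (K ^ (m + 1) * (1 - 4 * K ^ 2) ^ n)‖ +
          ‖(4 : ℂ) • l (K ^ (m + 2 + 1) * (1 - 4 * K ^ 2) ^ n)‖ := norm_sub_le _ _
      _ ≤ 5 ^ n * η + 4 * (5 ^ n * η) := by
          rw [norm_smul]
          have h1 := ih m (by omega)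
          have h2 := ih (m + 2) (by omega)
          have h3 : ‖(4 : ℂ)‖ = 4 := by simp
          rw [h3]
          linarith
      _ = 5 ^ (n + 1) * η := by ring

/-- the expansion of the resolvent -/
theorem expand (l : 𝓐 →ₗ[ℂ] ℂ) (E R2 : 𝓐) (w : ℂ) (hw : ‖w‖ ^ 2 ≤ 1)
    (hE : E = (1 - w ^ 2) • 1 + w ^ 2 • (R2 * E)) {τ : ℝ} (N : ℕ)
    (h : ∀ m < N, ‖l (R2 ^ m)‖ ≤ τ) :
    ‖l E‖ ≤ 2 * N * τ + (‖w‖ ^ 2) ^ N * ‖l (R2 ^ N * E)‖ := by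
  induction N with
  | zero => simp
  | succ N ih =>
    have h0 := ih (fun m hm => h m (by omega))
    have hτ := h N (by omega)
    have hτ0 : 0 ≤ τ := (norm_nonneg _).trans hτ
    have e : R2 ^ N * E = (1 - w ^ 2) • R2 ^ N + w ^ 2 • (R2 ^ (N + 1) * E) := by
      conv_lhs => rw [hE]
      rw [mul_add, mul_smul_comm, mul_smul_comm, mul_one, pow_succ R2 N, mul_assoc]
    have h2 : ‖l (R2 ^ N * E)‖ ≤ 2 * τ + ‖w‖ ^ 2 * ‖l (R2 ^ (N + 1) * E)‖ := by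
      rw [e, map_add, map_smul, map_smul]
      refine (norm_add_le _ _).trans ?_
      rw [norm_smul, norm_smul, norm_pow]
      have h3 : ‖1 - w ^ 2‖ ≤ 2 := by
        refine (norm_sub_le _ _).trans ?_
        rw [norm_one, norm_pow]
        linarith
      have := mul_le_mul h3 hτ (norm_nonneg _) (by norm_num)
      linarith
    have h4 : (‖w‖ ^ 2) ^ N ≤ 1 := pow_le_one₀ (sq_nonneg _) hw
    have h5 : 0 ≤ (‖w‖ ^ 2) ^ N := by positivity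
    calc ‖l E‖ ≤ 2 * N * τ + (‖w‖ ^ 2) ^ N * ‖l (R2 ^ N * E)‖ := h0
      _ ≤ 2 * N * τ + (‖w‖ ^ 2) ^ N * (2 * τ + ‖w‖ ^ 2 * ‖l (R2 ^ (N + 1) * E)‖) := by gcongr
      _ = 2 * N * τ + (‖w‖ ^ 2) ^ N * (2 * τ) + (‖w‖ ^ 2) ^ (N + 1) * ‖l (R2 ^ (N + 1) * E)‖ := by
          ring
      _ ≤ 2 * N * τ + 1 * (2 * τ) + (‖w‖ ^ 2) ^ (N + 1) * ‖l (R2 ^ (N + 1) * E)‖ := by gcongr
      _ = 2 * ((N + 1 : ℕ) : ℝ) * τ + (‖w‖ ^ 2) ^ (N + 1) * ‖l (R2 ^ (N + 1) * E)‖ := by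
          push_cast; ring

/-- the combination of functionals used in the proof -/
noncomputable def Lam (Φ : 𝓐 →ₐ[ℂ] (H →L[ℂ] H)) (v u : H) (ν : ℂ) (q j k : 𝓐) : 𝓐 →ₗ[ℂ] ℂ :=
  ((ν + 1) / 2) • (lf Φ v v ∘ₗ LinearMap.mulLeft ℂ (k * (q * j))) +
  ((ν - 1) / 2) • (lf Φ v v ∘ₗ LinearMap.mulLeft ℂ ((1 - 2 * j) * (k * (q * j)))) -
  (ν⁻¹ ^ 2 * ((ν + 1) / 2)) • (lf Φ u u ∘ₗ LinearMap.mulLeft ℂ (k * (q * j))) -
  (ν⁻¹ ^ 2 * ((ν - 1) / 2)) • (lf Φ u u ∘ₗ LinearMap.mulLeft ℂ ((1 - 2 * j) * (k * (q * j)))) -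
  ((1 - ν⁻¹ ^ 2) / 2) • (lf Φ u u ∘ₗ LinearMap.mulLeft ℂ (q * j * (q ^ 2 * j)))

theorem Lam_apply (Φ : 𝓐 →ₐ[ℂ] (H →L[ℂ] H)) (v u : H) (ν : ℂ) (q j k Z : 𝓐) :
    Lam Φ v u ν q j k Z = (ν + 1) / 2 * lf Φ v v (k * (q * j) * Z) +
      (ν - 1) / 2 * lf Φ v v ((1 - 2 * j) * (k * (q * j)) * Z) -
      ν⁻¹ ^ 2 * ((ν + 1) / 2) * lf Φ u u (k * (q * j) * Z) -
      ν⁻¹ ^ 2 * ((ν - 1) / 2) * lf Φ u u ((1 - 2 * j) * (k * (q * j)) * Z) -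
      (1 - ν⁻¹ ^ 2) / 2 * lf Φ u u (q * j * (q ^ 2 * j) * Z) := by
  simp only [Lam, LinearMap.add_apply, LinearMap.sub_apply, LinearMap.smul_apply,
    LinearMap.comp_apply, LinearMap.mulLeft_apply, smul_eq_mul]

theorem two_mul_lf (l : 𝓐 →ₗ[ℂ] ℂ) (Z : 𝓐) : (2 : ℂ) * l Z = l (2 * Z) := by
  rw [two_mul, two_mul, map_add]

/-- the exact value of `Lam` on `Z` -/
theorem Lam_eq (Φ : 𝓐 →ₐ[ℂ] (H →L[ℂ] H)) (v : H) (ν : ℂ) (q j k Z : 𝓐) (hν : ν ≠ 0)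
    (hj : j * (1 + q ^ 2) = 1) :
    Lam Φ v (Φ q v) ν q j k Z =
      (lf Φ v v (q * j * Z * k) - (1 + ν⁻¹) / 2 * lf Φ v v (q * j * Z)) -
      ν⁻¹ * (lf Φ (Φ q v) (Φ q v) (q * j * Z * k) -
        (1 + ν⁻¹) / 2 * lf Φ (Φ q v) (Φ q v) (q * j * Z)) +
      (1 + ν⁻¹) / 2 * (lf Φ v v (q * j * Z) - lf Φ (Φ q v) (Φ q v) (q * j * Z)) +
      (ν - 1) * (lf Φ v (Φ q v) ((q * j) ^ 2 * Z * k) + lf Φ (Φ q v) v ((q * j) ^ 2 * Z * k)) +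
      (ν - 1) * (ν⁻¹ ^ 2 - 1) * lf Φ (Φ q v) v ((q * j) ^ 2 * Z * k) +
      (1 - ν⁻¹ ^ 2) / 2 * lf Φ (Φ q v) v ((q * j) ^ 2 * Z) := by
  have hj' : q ^ 2 * j = 1 - j := by linear_combination hj
  have e1 : lf Φ v v ((1 - 2 * j) * (k * (q * j)) * Z) = -lf Φ v v (q * j * Z * k) +
      (2 : ℂ) * lf Φ v (Φ q v) ((q * j) ^ 2 * Z * k) := by
    rw [lf_q, two_mul_lf, ← map_neg, ← map_add]
    congr 1
    linear_combination (-2 * k * q * j * Z) * hj'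
  have e2 : lf Φ (Φ q v) (Φ q v) ((1 - 2 * j) * (k * (q * j)) * Z) =
      lf Φ (Φ q v) (Φ q v) (q * j * Z * k) -
      (2 : ℂ) * lf Φ (Φ q v) v ((q * j) ^ 2 * Z * k) := by
    rw [lf_q, lf_q, two_mul_lf, ← map_sub]
    congr 1
    ring
  have e3 : lf Φ (Φ q v) (Φ q v) (q * j * (q ^ 2 * j) * Z) =
      lf Φ (Φ q v) (Φ q v) (q * j * Z) - lf Φ (Φ q v) v ((q * j) ^ 2 * Z) := by
    rw [lf_q, lf_q, ← map_sub]
    congr 1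
    linear_combination (q ^ 2 * j * Z) * hj'
  have e4 : k * (q * j) * Z = q * j * Z * k := by ring
  rw [Lam_apply, e1, e2, e3, e4]
  field_simp
  ring

theorem key_ring {q j n' p m S : 𝓐} (hj' : q ^ 2 * j = 1 - j) (hp : p = 1 + m)
    (hS : S = 4 * m ^ 2 * n') (hn : (1 + 2 * m) * n' = 1) :
    1 + S * (q * j) ^ 2 = (p + m * (1 - 2 * j)) * ((1 + n' * q ^ 2) * j) := by
  have hK2 : (q * j) ^ 2 = j * (1 - j) := by linear_combination j * hj'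
  have hk : (1 + n' * q ^ 2) * j = j + n' * (1 - j) := by linear_combination n' * hj'
  rw [hK2, hk, hp, hS]
  linear_combination (2 * m * j * (1 - j) - (1 - j)) * hn

theorem B_eq {q j B E : 𝓐} {ν : ℂ} (hν : ν ≠ 0) (hj : j * (1 + q ^ 2) = 1)
    (hE : E * (1 + ((ν - 1) ^ 2 / ν) • (q * j) ^ 2) = 1) :
    B * (q * j) = ((ν + 1) / 2) • ((B * (1 + ν⁻¹ • q ^ 2) * j) * (q * j) * E) +
      ((ν - 1) / 2) • ((1 - 2 * j) * ((B * (1 + ν⁻¹ • q ^ 2) * j) * (q * j)) * E) := by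
  simp only [Algebra.smul_def] at hE ⊢
  have hj' : q ^ 2 * j = 1 - j := by linear_combination hj
  have hp : algebraMap ℂ 𝓐 ((ν + 1) / 2) = 1 + algebraMap ℂ 𝓐 ((ν - 1) / 2) := by
    rw [← map_one (algebraMap ℂ 𝓐), ← map_add]
    congr 1
    ring
  have h4 : (4 : 𝓐) = algebraMap ℂ 𝓐 4 := by rw [map_ofNat]
  have h2 : (2 : 𝓐) = algebraMap ℂ 𝓐 2 := by rw [map_ofNat]
  have hS : algebraMap ℂ 𝓐 ((ν - 1) ^ 2 / ν) =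
      4 * (algebraMap ℂ 𝓐 ((ν - 1) / 2)) ^ 2 * algebraMap ℂ 𝓐 ν⁻¹ := by
    rw [h4, ← map_pow, ← map_mul, ← map_mul]
    congr 1
    field_simp
    ring
  have hn : (1 + 2 * algebraMap ℂ 𝓐 ((ν - 1) / 2)) * algebraMap ℂ 𝓐 ν⁻¹ = 1 := by
    rw [h2, ← map_mul, ← map_one (algebraMap ℂ 𝓐), ← map_add, ← map_mul]
    congr 1
    field_simp
    ring
  have key := key_ring hj' hp hS hn
  linear_combination (-B * (q * j)) * hE + (B * q * j * E) * key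

theorem E_eq {q j E : 𝓐} {ν : ℂ} (hν : ν ≠ 0) (hν1 : ν + 1 ≠ 0)
    (hE : E * (1 + ((ν - 1) ^ 2 / ν) • (q * j) ^ 2) = 1) :
    E = (1 - ((ν - 1) / (ν + 1)) ^ 2) • 1 +
      ((ν - 1) / (ν + 1)) ^ 2 • ((1 - 4 * (q * j) ^ 2) * E) := by
  simp only [Algebra.smul_def] at hE ⊢
  have h4 : (4 : 𝓐) = algebraMap ℂ 𝓐 4 := by rw [map_ofNat]
  have hW : (1 - algebraMap ℂ 𝓐 (((ν - 1) / (ν + 1)) ^ 2)) * algebraMap ℂ 𝓐 ((ν - 1) ^ 2 / ν) =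
      4 * algebraMap ℂ 𝓐 (((ν - 1) / (ν + 1)) ^ 2) := by
    rw [h4, ← map_one (algebraMap ℂ 𝓐), ← map_sub, ← map_mul, ← map_mul]
    congr 1
    field_simp
    ring
  rw [map_sub, map_one]
  linear_combination (1 - algebraMap ℂ 𝓐 (((ν - 1) / (ν + 1)) ^ 2)) * hE - (q * j) ^ 2 * E * hW

/-- the quantity of the theorem in terms of `Lam` -/
theorem target_eq (Φ : 𝓐 →ₐ[ℂ] (H →L[ℂ] H)) (v : H) {ν κ : ℂ} {q j B E : 𝓐} (hν : ν ≠ 0)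
    (hj : j * (1 + q ^ 2) = 1) (hE : E * (1 + ((ν - 1) ^ 2 / ν) • (q * j) ^ 2) = 1) :
    inner ℂ v (Φ ((κ / 2) • (B * (j + (ν⁻¹ ^ 2) • (q ^ 2 * j)))) (Φ q v)) -
        inner ℂ (Φ q v) (Φ ((κ / 4 * (1 - ν⁻¹ ^ 2)) • (q * (q * j) ^ 2 * E)) (Φ q v)) =
      κ / 2 * Lam Φ v (Φ q v) ν q j (B * (1 + ν⁻¹ • q ^ 2) * j) E +
      κ / 2 * ν⁻¹ ^ 2 * (lf Φ v (Φ q v) (B * (q ^ 2 * j)) + lf Φ (Φ q v) v (B * (q ^ 2 * j))) := by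
  have e1 : inner ℂ v (Φ ((κ / 2) • (B * (j + (ν⁻¹ ^ 2) • (q ^ 2 * j)))) (Φ q v)) =
      κ / 2 * (lf Φ v v (B * (q * j)) + ν⁻¹ ^ 2 * lf Φ v (Φ q v) (B * (q ^ 2 * j))) := by
    rw [← lf_apply, mul_add, mul_smul_comm, map_smul, map_add, map_smul, smul_eq_mul, smul_eq_mul,
      lf_q Φ v v q (B * j)]
    congr 3
    ring
  have e2 : inner ℂ (Φ q v) (Φ ((κ / 4 * (1 - ν⁻¹ ^ 2)) • (q * (q * j) ^ 2 * E)) (Φ q v)) =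
      κ / 4 * (1 - ν⁻¹ ^ 2) * lf Φ (Φ q v) (Φ q v) (q * j * (q ^ 2 * j) * E) := by
    rw [← lf_apply, map_smul, smul_eq_mul]
    congr 2
    ring
  have e3 := congrArg (lf Φ v v) (B_eq (B := B) hν hj hE)
  have e4 := congrArg (lf Φ (Φ q v) (Φ q v)) (B_eq (B := B) hν hj hE)
  have e5 : lf Φ (Φ q v) (Φ q v) (B * (q * j)) = lf Φ (Φ q v) v (B * (q ^ 2 * j)) := by
    rw [lf_q]
    congr 1
    ring
  rw [map_add, map_smul, map_smul, smul_eq_mul, smul_eq_mul] at e3 e4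
  rw [e5] at e4
  rw [e1, e2, Lam_apply]
  linear_combination (κ / 2) * e3 - (κ / 2) * ν⁻¹ ^ 2 * e4

/-- `⟨v, Z u⟩ ~ - ⟨u, Z v⟩` -/
theorem anti (Φ : 𝓐 →ₐ[ℂ] (H →L[ℂ] H)) {q j Δ : 𝓐} {M δ : ℝ} {v : H}
    (hN : Near Φ q j Δ M δ v) {Z : 𝓐} {G : ℝ} (hG : ‖Φ Z‖ ≤ G) :
    ‖lf Φ v (Φ q v) Z + lf Φ (Φ q v) v Z‖ ≤ δ * G * M := by
  have e : lf Φ v (Φ q v) Z = inner ℂ ((Φ q).adjoint v) (Φ Z v) := by
    rw [ContinuousLinearMap.adjoint_inner_left, lf_q, lf_apply, mul_comm, map_mul]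
    rfl
  rw [e, lf_apply, ← inner_add_left, add_comm]
  have hδ : 0 ≤ δ := (norm_nonneg _).trans hN.xi
  have hG' : 0 ≤ G := (norm_nonneg _).trans hG
  calc _ ≤ ‖Φ q v + (Φ q).adjoint v‖ * ‖Φ Z v‖ := norm_inner_le_norm _ _
    _ ≤ δ * (G * M) := by
        gcongr
        · exact hN.xi
        · exact ((Φ Z).le_opNorm v).trans (by gcongr; exact hN.nv)
    _ = δ * G * M := by ring

theorem norm_R2_pow (Φ : 𝓐 →ₐ[ℂ] (H →L[ℂ] H)) {K X : 𝓐} {M G : ℝ} (hK : ‖Φ K‖ ≤ M)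
    (hX : ‖Φ X‖ ≤ G) (n : ℕ) : ‖Φ ((1 - 4 * K ^ 2) ^ n * X)‖ ≤ (1 + 4 * M ^ 2) ^ n * G := by
  induction n with
  | zero => simpa using hX
  | succ n ih =>
    have e : (1 - 4 * K ^ 2) ^ (n + 1) * X = (1 - 4 * K ^ 2) ^ n * X -
        (4 : ℂ) • (K * (K * ((1 - 4 * K ^ 2) ^ n * X))) := by
      rw [Algebra.smul_def, map_ofNat]
      ring
    have hM : 0 ≤ M := (norm_nonneg _).trans hK
    have hG' : 0 ≤ G := (norm_nonneg _).trans hX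
    rw [e, map_sub, map_smul, map_mul Φ K, map_mul Φ K]
    calc _ ≤ ‖Φ ((1 - 4 * K ^ 2) ^ n * X)‖ +
          ‖(4 : ℂ) • (Φ K * (Φ K * Φ ((1 - 4 * K ^ 2) ^ n * X)))‖ := norm_sub_le _ _
      _ ≤ (1 + 4 * M ^ 2) ^ n * G + 4 * (M * (M * ((1 + 4 * M ^ 2) ^ n * G))) := by
          rw [norm_smul]
          have h3 : ‖(4 : ℂ)‖ = 4 := by simp
          rw [h3]
          gcongr
          refine (norm_mul_le _ _).trans ?_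
          gcongr
          refine (norm_mul_le _ _).trans ?_
          gcongr
      _ = (1 + 4 * M ^ 2) ^ (n + 1) * G := by ring

section bounds

variable {Φ : 𝓐 →ₐ[ℂ] (H →L[ℂ] H)} {q qi j B L Δ E : 𝓐} {a : ℝ} {ν b κ : ℂ} {v : H} {M δ η : ℝ}

theorem norm_half_add (hν : ‖ν‖ ≤ M) (hM : 1 ≤ M) : ‖(ν + 1) / 2‖ ≤ M := by
  rw [norm_div]
  have : ‖ν + 1‖ ≤ ‖ν‖ + 1 := (norm_add_le _ _).trans (by rw [norm_one])
  have h2 : ‖(2 : ℂ)‖ = 2 := by simp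
  rw [h2]
  linarith

theorem norm_half_sub (hν : ‖ν‖ ≤ M) (hM : 1 ≤ M) : ‖(ν - 1) / 2‖ ≤ M := by
  rw [norm_div]
  have : ‖ν - 1‖ ≤ ‖ν‖ + 1 := (norm_sub_le _ _).trans (by rw [norm_one])
  have h2 : ‖(2 : ℂ)‖ = 2 := by simp
  rw [h2]
  linarith

theorem Lam_small (hM : 1 ≤ M) (hδ : 0 ≤ δ) (hN : Near Φ q j Δ M δ v)
    (hK : KerA Φ q qi j B L a ν b M δ) {N : ℕ} (hη : 0 ≤ η)
    (h1 : ∀ n ≤ 2 * N, ‖inner ℂ (Φ q v) (Φ ((q * j) ^ (n + 1)) v)‖ ≤ η)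
    (h2 : ∀ n ≤ 2 * N,
      ‖inner ℂ (Φ q v) (Φ ((q * j) ^ (n + 1) * (B * (1 + ν⁻¹ • q ^ 2) * j)) v)‖ ≤ η)
    (h3 : ∀ n ≤ 2 * N,
      ‖inner ℂ v (Φ ((q * j) ^ (n + 1) * (B * (1 + ν⁻¹ • q ^ 2) * j)) v) -
        (1 + ν⁻¹) / 2 * inner ℂ v (Φ ((q * j) ^ (n + 1)) v)‖ ≤ η)
    (h4 : ∀ n ≤ 2 * N,
      ‖inner ℂ (Φ q v) (Φ ((q * j) ^ (n + 1) * (B * (1 + ν⁻¹ • q ^ 2) * j)) (Φ q v)) -
        (1 + ν⁻¹) / 2 * inner ℂ (Φ q v) (Φ ((q * j) ^ (n + 1)) (Φ q v))‖ ≤ η)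
    (h5 : ∀ n ≤ 2 * N,
      ‖inner ℂ v (Φ ((q * j) ^ (n + 1)) v) -
        inner ℂ (Φ q v) (Φ ((q * j) ^ (n + 1)) (Φ q v))‖ ≤ η) :
    ∀ n < N, ‖Lam Φ v (Φ q v) ν q j (B * (1 + ν⁻¹ • q ^ 2) * j) ((1 - 4 * (q * j) ^ 2) ^ n)‖ ≤
      8 * M ^ 3 * (5 ^ N * η) + 2 * M * (δ * ((1 + 4 * M ^ 2) ^ N * M ^ 3) * M) := by
  intro n hn
  set k := B * (1 + ν⁻¹ • q ^ 2) * j with hk
  set K := q * j with hKd
  set u := Φ q v with hu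
  have p1 := pw (lf Φ u v) K (D := 2 * N) h1 n 1 (by omega)
  have p2 := pw (lf Φ u v ∘ₗ LinearMap.mulRight ℂ k) K (D := 2 * N) (η := η) (fun m hm => by
    simpa [lf_apply] using h2 m hm) n 1 (by omega)
  have p3 := pw (lf Φ v v ∘ₗ LinearMap.mulRight ℂ k - ((1 + ν⁻¹) / 2) • lf Φ v v) K
    (D := 2 * N) (η := η) (fun m hm => by
      simpa [lf_apply] using h3 m hm) n 0 (by omega)
  have p4 := pw (lf Φ u u ∘ₗ LinearMap.mulRight ℂ k - ((1 + ν⁻¹) / 2) • lf Φ u u) K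
    (D := 2 * N) (η := η) (fun m hm => by
      simpa [lf_apply] using h4 m hm) n 0 (by omega)
  have p5 := pw (lf Φ v v - lf Φ u u) K
    (D := 2 * N) (η := η) (fun m hm => by
      simpa [lf_apply] using h5 m hm) n 0 (by omega)
  simp only [LinearMap.sub_apply, LinearMap.smul_apply, LinearMap.comp_apply,
    LinearMap.mulRight_apply, smul_eq_mul, zero_add, pow_one] at p2 p3 p4 p5
  have hMn : 0 ≤ M := by linarith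
  have hC : ‖Φ (K ^ (1 + 1) * (1 - 4 * K ^ 2) ^ n * k)‖ ≤ (1 + 4 * M ^ 2) ^ N * M ^ 3 := by
    have e : K ^ (1 + 1) * (1 - 4 * K ^ 2) ^ n * k = (1 - 4 * K ^ 2) ^ n * (K * (K * k)) := by ring
    have hX : ‖Φ (K * (K * k))‖ ≤ M ^ 3 := by
      rw [map_mul Φ K, map_mul Φ K]
      calc ‖Φ K * (Φ K * Φ k)‖ ≤ ‖Φ K‖ * (‖Φ K‖ * ‖Φ k‖) :=
            (norm_mul_le _ _).trans (mul_le_mul_of_nonneg_left (norm_mul_le _ _) (norm_nonneg _))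
        _ ≤ M * (M * M) := by
            gcongr
            · exact hN.nK
            · exact hN.nK
            · exact hK.nk
        _ = M ^ 3 := by ring
    rw [e]
    refine (norm_R2_pow Φ hN.nK hX n).trans ?_
    gcongr
    nlinarith
  have p6 := anti Φ hN hC
  have hj := hN.hj
  rw [Lam_eq Φ v ν q j k _ hK.hν0 hj]
  have h5n : (5 : ℝ) ^ n * η ≤ 5 ^ N * η := by
    gcongr
    norm_num
  have hνi := hK.hν'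
  have hνn := hK.hν
  have c1 : ‖(1 + ν⁻¹) / 2‖ ≤ M := by
    rw [add_comm]
    exact norm_half_add hνi hM
  have c2 : ‖ν - 1‖ ≤ 2 * M := (norm_sub_le _ _).trans (by rw [norm_one]; linarith)
  have c3 : ‖ν⁻¹ ^ 2 - 1‖ ≤ 2 * M ^ 2 := by
    refine (norm_sub_le _ _).trans ?_
    rw [norm_one, norm_pow]
    have : ‖ν⁻¹‖ ^ 2 ≤ M ^ 2 := by gcongr
    nlinarith
  have c4 : ‖(1 - ν⁻¹ ^ 2) / 2‖ ≤ M ^ 2 := by
    rw [norm_div]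
    have h2 : ‖(2 : ℂ)‖ = 2 := by simp
    rw [h2, norm_sub_rev]
    linarith
  have hT : 0 ≤ 5 ^ N * η := by positivity
  set T := 5 ^ N * η with hTd
  set G := δ * ((1 + 4 * M ^ 2) ^ N * M ^ 3) * M with hGd
  have hG0 : 0 ≤ G := by positivity
  have q1 := p1.trans h5n
  have q2 := p2.trans h5n
  have q3 := p3.trans h5n
  have q4 := p4.trans h5n
  have q5 := p5.trans h5n
  have e2 : (1 : ℕ) + 1 = 2 := rfl
  rw [e2] at q1 q2 p6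
  have bd : ∀ (x1 x2 x3 x4 x5 x6 : ℂ), ‖x1 + x2 + x3 + x4 + x5 + x6‖ ≤
      ‖x1‖ + ‖x2‖ + ‖x3‖ + ‖x4‖ + ‖x5‖ + ‖x6‖ := by
    intro x1 x2 x3 x4 x5 x6
    have := norm_add_le (x1 + x2 + x3 + x4 + x5) x6
    have := norm_add_le (x1 + x2 + x3 + x4) x5
    have := norm_add_le (x1 + x2 + x3) x4
    have := norm_add_le (x1 + x2) x3
    have := norm_add_le x1 x2
    linarith
  rw [sub_eq_add_neg]
  refine (bd _ _ _ _ _ _).trans ?_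
  have r1 := q3
  have r2 : ‖-(ν⁻¹ * (lf Φ u u (K * (1 - 4 * K ^ 2) ^ n * k) -
        (1 + ν⁻¹) / 2 * lf Φ u u (K * (1 - 4 * K ^ 2) ^ n)))‖ ≤ M * T := by
    rw [norm_neg, norm_mul]
    gcongr
  have r3 : ‖(1 + ν⁻¹) / 2 * (lf Φ v v (K * (1 - 4 * K ^ 2) ^ n) -
      lf Φ u u (K * (1 - 4 * K ^ 2) ^ n))‖ ≤ M * T := by
    rw [norm_mul]
    gcongr
  have r4 : ‖(ν - 1) * (lf Φ v u (K ^ 2 * (1 - 4 * K ^ 2) ^ n * k) +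
      lf Φ u v (K ^ 2 * (1 - 4 * K ^ 2) ^ n * k))‖ ≤ 2 * M * G := by
    rw [norm_mul]
    gcongr
  have r5 : ‖(ν - 1) * (ν⁻¹ ^ 2 - 1) * lf Φ u v (K ^ 2 * (1 - 4 * K ^ 2) ^ n * k)‖ ≤
      2 * M * (2 * M ^ 2) * T := by
    rw [norm_mul, norm_mul]
    gcongr
  have r6 : ‖(1 - ν⁻¹ ^ 2) / 2 * lf Φ u v (K ^ 2 * (1 - 4 * K ^ 2) ^ n)‖ ≤ M ^ 2 * T := by
    rw [norm_mul]
    gcongr
  have hM2 : M ≤ M ^ 3 := by nlinarith [sq_nonneg M, mul_self_nonneg (M - 1)]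
  have hM3 : M ^ 2 ≤ M ^ 3 := by nlinarith [sq_nonneg M]
  have hM4 : 1 ≤ M ^ 3 := by linarith
  have s1 := mul_le_mul_of_nonneg_right hM2 hT
  have s2 := mul_le_mul_of_nonneg_right hM3 hT
  have s3 := mul_le_mul_of_nonneg_right hM4 hT
  nlinarith

theorem Lam_big (hM : 1 ≤ M) (hN : Near Φ q j Δ M δ v) (hK : KerA Φ q qi j B L a ν b M δ)
    {Z : 𝓐} (hZ : ‖Φ Z‖ ≤ M) :
    ‖Lam Φ v (Φ q v) ν q j (B * (1 + ν⁻¹ • q ^ 2) * j) Z‖ ≤ 9 * M ^ 9 := by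
  have hMn : 0 ≤ M := by linarith
  have hνi := hK.hν'
  have hνn := hK.hν
  have c0 := norm_half_add hνn hM
  have c1 := norm_half_sub hνn hM
  have c2 : ‖ν⁻¹ ^ 2‖ ≤ M ^ 2 := by
    rw [norm_pow]
    gcongr
  have c4 : ‖(1 - ν⁻¹ ^ 2) / 2‖ ≤ M ^ 2 := by
    rw [norm_div]
    have h2 : ‖(2 : ℂ)‖ = 2 := by simp
    have : ‖1 - ν⁻¹ ^ 2‖ ≤ 1 + M ^ 2 := (norm_sub_le _ _).trans (by rw [norm_one]; linarith)
    rw [h2]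
    nlinarith
  rw [Lam_apply]
  set k := B * (1 + ν⁻¹ • q ^ 2) * j with hk
  set K := q * j with hKd
  have m1 : ‖Φ (k * K * Z)‖ ≤ M ^ 3 := by
    rw [map_mul, map_mul]
    calc ‖Φ k * Φ K * Φ Z‖ ≤ ‖Φ k‖ * ‖Φ K‖ * ‖Φ Z‖ :=
          (norm_mul_le _ _).trans (mul_le_mul_of_nonneg_right (norm_mul_le _ _) (norm_nonneg _))
      _ ≤ M * M * M := by
          gcongr
          · exact hK.nk
          · exact hN.nK
      _ = M ^ 3 := by ring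
  have m2 : ‖Φ ((1 - 2 * j) * (k * K) * Z)‖ ≤ 3 * M ^ 4 := by
    have e : (1 - 2 * j) * (k * K) * Z = k * K * Z - (2 : ℂ) • (j * (k * K * Z)) := by
      rw [Algebra.smul_def, map_ofNat]
      ring
    rw [e, map_sub, map_smul, map_mul Φ j]
    have h2 : ‖(2 : ℂ)‖ = 2 := by simp
    calc ‖Φ (k * K * Z) - (2 : ℂ) • (Φ j * Φ (k * K * Z))‖ ≤ ‖Φ (k * K * Z)‖ +
          2 * (‖Φ j‖ * ‖Φ (k * K * Z)‖) := by
          refine (norm_sub_le _ _).trans ?_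
          rw [norm_smul, h2]
          gcongr
          exact norm_mul_le _ _
      _ ≤ M ^ 3 + 2 * (M * M ^ 3) := by
          gcongr
          exact hN.nj
      _ ≤ 3 * M ^ 4 := by nlinarith [pow_pos (by linarith : 0 < M) 3]
  have m3 : ‖Φ (K * (q ^ 2 * j) * Z)‖ ≤ M ^ 3 := by
    rw [map_mul, map_mul]
    calc ‖Φ K * Φ (q ^ 2 * j) * Φ Z‖ ≤ ‖Φ K‖ * ‖Φ (q ^ 2 * j)‖ * ‖Φ Z‖ :=
          (norm_mul_le _ _).trans (mul_le_mul_of_nonneg_right (norm_mul_le _ _) (norm_nonneg _))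
      _ ≤ M * M * M := by
          gcongr
          · exact hN.nK
          · exact hN.nJ
      _ = M ^ 3 := by ring
  have bd : ∀ (x1 x2 x3 x4 x5 : ℂ), ‖x1 + x2 - x3 - x4 - x5‖ ≤
      ‖x1‖ + ‖x2‖ + ‖x3‖ + ‖x4‖ + ‖x5‖ := by
    intro x1 x2 x3 x4 x5
    have := norm_sub_le (x1 + x2 - x3 - x4) x5
    have := norm_sub_le (x1 + x2 - x3) x4
    have := norm_sub_le (x1 + x2) x3
    have := norm_add_le x1 x2
    linarith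
  refine (bd _ _ _ _ _).trans ?_
  have n1 := lf_bound Φ v v _ hN.nv hN.nv m1
  have n2 := lf_bound Φ v v _ hN.nv hN.nv m2
  have n3 := lf_bound Φ (Φ q v) (Φ q v) _ hN.nu hN.nu m1
  have n4 := lf_bound Φ (Φ q v) (Φ q v) _ hN.nu hN.nu m2
  have n5 := lf_bound Φ (Φ q v) (Φ q v) _ hN.nu hN.nu m3
  simp only [norm_mul]
  have t1 := mul_le_mul c0 n1 (norm_nonneg _) hMn
  have t2 := mul_le_mul c1 n2 (norm_nonneg _) hMn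
  have t3 := mul_le_mul (mul_le_mul c2 c0 (norm_nonneg _) (by positivity)) n3 (norm_nonneg _)
    (by positivity)
  have t4 := mul_le_mul (mul_le_mul c2 c1 (norm_nonneg _) (by positivity)) n4 (norm_nonneg _)
    (by positivity)
  have t5 := mul_le_mul c4 n5 (norm_nonneg _) (by positivity)
  have g6 : M ^ 6 ≤ M ^ 9 := pow_le_pow_right₀ hM (by norm_num)
  have g7 : M ^ 7 ≤ M ^ 9 := pow_le_pow_right₀ hM (by norm_num)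
  have g8 : M ^ 8 ≤ M ^ 9 := pow_le_pow_right₀ hM (by norm_num)
  nlinarith

theorem core (hM : 1 ≤ M) (hδ : 0 ≤ δ) (hN : Near Φ q j Δ M δ v)
    (hK : KerA Φ q qi j B L a ν b M δ) (hκ : ‖κ‖ ≤ M)
    (hw : ‖(ν - 1) / (ν + 1)‖ ^ 2 ≤ 1 - 1 / M) (hν1 : ν + 1 ≠ 0)
    (hE : E * (1 + ((ν - 1) ^ 2 / ν) • (q * j) ^ 2) = 1)
    (hR : ∀ N : ℕ, ‖Φ ((1 - 2 * j) ^ (2 * N) * E)‖ ≤ M) {N : ℕ} (hη : 0 ≤ η)
    (h1 : ∀ n ≤ 2 * N, ‖inner ℂ (Φ q v) (Φ ((q * j) ^ (n + 1)) v)‖ ≤ η)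
    (h2 : ∀ n ≤ 2 * N,
      ‖inner ℂ (Φ q v) (Φ ((q * j) ^ (n + 1) * (B * (1 + ν⁻¹ • q ^ 2) * j)) v)‖ ≤ η)
    (h3 : ∀ n ≤ 2 * N,
      ‖inner ℂ v (Φ ((q * j) ^ (n + 1) * (B * (1 + ν⁻¹ • q ^ 2) * j)) v) -
        (1 + ν⁻¹) / 2 * inner ℂ v (Φ ((q * j) ^ (n + 1)) v)‖ ≤ η)
    (h4 : ∀ n ≤ 2 * N,
      ‖inner ℂ (Φ q v) (Φ ((q * j) ^ (n + 1) * (B * (1 + ν⁻¹ • q ^ 2) * j)) (Φ q v)) -
        (1 + ν⁻¹) / 2 * inner ℂ (Φ q v) (Φ ((q * j) ^ (n + 1)) (Φ q v))‖ ≤ η)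
    (h5 : ∀ n ≤ 2 * N,
      ‖inner ℂ v (Φ ((q * j) ^ (n + 1)) v) -
        inner ℂ (Φ q v) (Φ ((q * j) ^ (n + 1)) (Φ q v))‖ ≤ η) :
    ‖inner ℂ v (Φ ((κ / 2) • (B * (j + (ν⁻¹ ^ 2) • (q ^ 2 * j)))) (Φ q v)) -
        inner ℂ (Φ q v) (Φ ((κ / 4 * (1 - ν⁻¹ ^ 2)) • (q * (q * j) ^ 2 * E)) (Φ q v))‖ ≤
      M * (2 * N * (8 * M ^ 3 * (5 ^ N * η) +
        2 * M * (δ * ((1 + 4 * M ^ 2) ^ N * M ^ 3) * M)) + (1 - 1 / M) ^ N * (9 * M ^ 9)) +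
      M * M ^ 2 * (δ * M ^ 2 * M) := by
  have hMn : 0 ≤ M := by linarith
  have hw1 : ‖(ν - 1) / (ν + 1)‖ ^ 2 ≤ 1 := hw.trans (by
    have : 0 ≤ 1 / M := by positivity
    linarith)
  have hκ2 : ‖κ / 2‖ ≤ M := by
    rw [norm_div]
    have h2 : ‖(2 : ℂ)‖ = 2 := by simp
    rw [h2]
    linarith [norm_nonneg κ]
  rw [target_eq Φ v hK.hν0 hN.hj hE]
  have b1 := expand (Lam Φ v (Φ q v) ν q j (B * (1 + ν⁻¹ • q ^ 2) * j)) E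
    (1 - 4 * (q * j) ^ 2) ((ν - 1) / (ν + 1)) hw1 (E_eq hK.hν0 hν1 hE) N
    (Lam_small hM hδ hN hK hη h1 h2 h3 h4 h5)
  have hRN : ‖Φ ((1 - 4 * (q * j) ^ 2) ^ N * E)‖ ≤ M := by
    have hj' : q ^ 2 * j = 1 - j := by linear_combination hN.hj
    have e : (1 - 4 * (q * j) ^ 2) = (1 - 2 * j) ^ 2 := by linear_combination (-4 * j) * hj'
    rw [e, ← pow_mul]
    exact hR N
  have b2 := Lam_big hM hN hK hRN
  have b3 : (‖(ν - 1) / (ν + 1)‖ ^ 2) ^ N ≤ (1 - 1 / M) ^ N :=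
    pow_le_pow_left₀ (sq_nonneg _) hw N
  have b4 : ‖Φ (B * (q ^ 2 * j))‖ ≤ M ^ 2 := by
    rw [map_mul]
    calc ‖Φ B * Φ (q ^ 2 * j)‖ ≤ ‖Φ B‖ * ‖Φ (q ^ 2 * j)‖ := norm_mul_le _ _
      _ ≤ M * M := by
          gcongr
          · exact hK.nB
          · exact hN.nJ
      _ = M ^ 2 := by ring
  have b5 := anti Φ hN b4
  have b6 : ‖Lam Φ v (Φ q v) ν q j (B * (1 + ν⁻¹ • q ^ 2) * j) E‖ ≤
      2 * N * (8 * M ^ 3 * (5 ^ N * η) +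
        2 * M * (δ * ((1 + 4 * M ^ 2) ^ N * M ^ 3) * M)) + (1 - 1 / M) ^ N * (9 * M ^ 9) := by
    refine b1.trans ?_
    have := mul_le_mul b3 b2 (norm_nonneg _) ((pow_nonneg (sq_nonneg _) N).trans b3)
    linarith
  refine (norm_add_le _ _).trans ?_
  rw [norm_mul, norm_mul, norm_mul, norm_pow]
  have hν2 : ‖ν⁻¹‖ ^ 2 ≤ M ^ 2 := by
    have := hK.hν'
    gcongr
  gcongr

end bounds

theorem exists_delta {P : ℕ → ℝ → Prop} (hP : ∀ n, ∃ d : ℝ, 0 < d ∧ P n d)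
    (hm : ∀ n d d', d' ≤ d → 0 < d' → P n d → P n d') (D : ℕ) :
    ∃ d : ℝ, 0 < d ∧ ∀ n ≤ D, P n d := by
  induction D with
  | zero =>
    obtain ⟨d, h1, h2⟩ := hP 0
    exact ⟨d, h1, fun n hn => by rw [Nat.le_zero.mp hn]; exact h2⟩
  | succ D ih =>
    obtain ⟨d, h1, h2⟩ := ih
    obtain ⟨d', h3, h4⟩ := hP (D + 1)
    refine ⟨min d d', lt_min h1 h3, fun n hn => ?_⟩
    rcases Nat.lt_or_ge D n with h | h
    · have : n = D + 1 := by omega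
      subst this
      exact hm _ _ _ (min_le_right _ _) (lt_min h1 h3) h4
    · exact hm _ _ _ (min_le_left _ _) (lt_min h1 h3) (h2 n h)

theorem clt_st (hCE : CEStatement) : CLTStatement := by
  intro M ε hM hε
  have hM0 : 0 < M := by linarith
  -- the number of terms
  obtain ⟨N, hN⟩ : ∃ N : ℕ, M * ((1 - 1 / M) ^ N * (9 * M ^ 9)) ≤ ε / 3 := by
    have h1 : (1 - 1 / M) < 1 := by
      have : 0 < 1 / M := by positivity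
      linarith
    have h0 : 0 ≤ 1 - 1 / M := by
      have : 1 / M ≤ 1 := by
        rw [div_le_one hM0]
        exact hM
      linarith
    have h2 : 0 < ε / 3 / (M * (9 * M ^ 9)) := by positivity
    obtain ⟨N, hN⟩ := exists_pow_lt_of_lt_one h2 h1
    refine ⟨N, ?_⟩
    rw [lt_div_iff₀ (by positivity)] at hN
    linarith
  set A1 : ℝ := M * (2 * N * (8 * M ^ 3 * 5 ^ N)) with hA1
  set A2 : ℝ := M * (2 * N * (2 * M * (((1 + 4 * M ^ 2) ^ N * M ^ 3) * M))) +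
    M * M ^ 2 * (M ^ 2 * M) with hA2
  have hA1' : 0 ≤ A1 := by positivity
  have hA2' : 0 ≤ A2 := by positivity
  set η : ℝ := ε / (3 * (A1 + 1)) with hη
  have hη0 : 0 < η := by positivity
  have hη1 : A1 * η ≤ ε / 3 := by
    rw [hη, mul_div_assoc', div_le_div_iff₀ (by positivity) (by positivity)]
    nlinarith
  -- the errors
  obtain ⟨d, hd0, hd⟩ := exists_delta (P := fun n δ =>
    ∀ (H : Type) [NormedAddCommGroup H] [InnerProductSpace ℂ H] [CompleteSpace H]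
      (𝓐 : Type) [CommRing 𝓐] [Algebra ℂ 𝓐] (Φ : 𝓐 →ₐ[ℂ] (H →L[ℂ] H)) (q qi j B L Δ : 𝓐)
      (a : ℝ) (ν b : ℂ) (v : H), Near Φ q j Δ M δ v → KerA Φ q qi j B L a ν b M δ →
      (∀ N : ℕ, ‖Φ (q * j * (1 - q * j) ^ N)‖ ≤ M / (N + 1)) →
      ‖inner ℂ (Φ q v) (Φ ((q * j) ^ (n + 1)) v)‖ ≤ η ∧
      ‖inner ℂ (Φ q v) (Φ ((q * j) ^ (n + 1) * (B * (1 + ν⁻¹ • q ^ 2) * j)) v)‖ ≤ η ∧
      ‖inner ℂ v (Φ ((q * j) ^ (n + 1) * (B * (1 + ν⁻¹ • q ^ 2) * j)) v) -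
        (1 + ν⁻¹) / 2 * inner ℂ v (Φ ((q * j) ^ (n + 1)) v)‖ ≤ η ∧
      ‖inner ℂ (Φ q v) (Φ ((q * j) ^ (n + 1) * (B * (1 + ν⁻¹ • q ^ 2) * j)) (Φ q v)) -
        (1 + ν⁻¹) / 2 * inner ℂ (Φ q v) (Φ ((q * j) ^ (n + 1)) (Φ q v))‖ ≤ η ∧
      ‖inner ℂ v (Φ ((q * j) ^ (n + 1)) v) -
        inner ℂ (Φ q v) (Φ ((q * j) ^ (n + 1)) (Φ q v))‖ ≤ η)
    (fun n => hCE M η n hM0 hη0)
    (fun n d d' hdd _ h H _ _ _ 𝓐 _ _ Φ q qi j B L Δ a ν b v hN' hK' hb =>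
      h H 𝓐 Φ q qi j B L Δ a ν b v (Near.mono hN' hdd) (KerA.mono hK' hdd) hb) (2 * N)
  refine ⟨min d (ε / (3 * (A2 + 1))), lt_min hd0 (by positivity), ?_⟩
  intro H _ _ _ 𝓐 _ _ Φ q qi j B L Δ E a ν b κ v hNear hKer hb _ hκ hw hν1 hE hR
  set δ := min d (ε / (3 * (A2 + 1))) with hδ
  have hδ0 : 0 ≤ δ := (norm_nonneg _).trans hNear.nΔ
  have hδ1 : A2 * δ ≤ ε / 3 := by
    have : δ ≤ ε / (3 * (A2 + 1)) := min_le_right _ _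
    calc A2 * δ ≤ A2 * (ε / (3 * (A2 + 1))) := by gcongr
      _ ≤ ε / 3 := by
          rw [mul_div_assoc', div_le_div_iff₀ (by positivity) (by positivity)]
          nlinarith
  have hce := fun n hn => hd n hn H 𝓐 Φ q qi j B L Δ a ν b v (Near.mono hNear (min_le_left _ _))
    (KerA.mono hKer (min_le_left _ _)) hb
  refine (core hM hδ0 hNear hKer hκ hw hν1 hE hR (N := N) hη0.le (fun n hn => (hce n hn).1)
    (fun n hn => (hce n hn).2.1) (fun n hn => (hce n hn).2.2.1) (fun n hn => (hce n hn).2.2.2.1)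
    (fun n hn => (hce n hn).2.2.2.2)).trans ?_
  have e : M * (2 * N * (8 * M ^ 3 * (5 ^ N * η) +
        2 * M * (δ * ((1 + 4 * M ^ 2) ^ N * M ^ 3) * M)) + (1 - 1 / M) ^ N * (9 * M ^ 9)) +
      M * M ^ 2 * (δ * M ^ 2 * M) =
      A1 * η + A2 * δ + M * ((1 - 1 / M) ^ N * (9 * M ^ 9)) := by
    rw [hA1, hA2]
    ring
  rw [e]
  linarith

end C3N.H30
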